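import Pool.Agent.Helper93.KS.St2

/-!
# PEL: `(n ^ 2 - 4)(n' ^ 2 - 4)` is not a square
-/

set_option autoImplicit false

namespace Pool.Agent.Helper42.KS

open Finset Filter Topology Pool.Agent.Helper93.KS
open Pool.Agent.Helper15.AB (SP StML)
open Pool.Agent.Helper9.TW (gm)
open Pool.Agent.Helper93.KP (gk vk tk rn gn TK qk StRTS)

theorem hPEL : StPEL := by
  intro n n' z h3 h1 h2 hz h
  have hnn : 12 ≤ n * n' := by nlinarith
  -- `z < n n' - 4`
  have hlt : z < n * n' - 4 := by
    by_contra hge
    push Not at hge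
    have h4 : (n * n' - 4) ^ 2 ≤ z ^ 2 := by
      apply pow_le_pow_left₀ (by linarith) hge
    have h5 : 0 < (n' - n) ^ 2 := by
      have : n' - n ≠ 0 := by omega
      positivity
    nlinarith
  -- parity
  have hle : z ≤ n * n' - 6 := by
    rcases Int.even_or_odd' (z - n * n') with ⟨k, hk | hk⟩
    · omega
    · exfalso
      have hz' : z = n * n' + (2 * k + 1) := by linarith
      have h5 : 2 * (k * (2 * k + 1 + 2 * (n * n')) + (k + n * n')) + 1 =
          2 * (-2 * (n ^ 2 + n' ^ 2 - 4)) := by
        rw [hz'] at h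
        linear_combination -h
      omega
  have hsq : z ^ 2 ≤ (n * n' - 6) ^ 2 := pow_le_pow_left₀ hz hle 2
  have h6 : 0 < (n' - n) * (2 * n - n') := mul_pos (by linarith) (by linarith)
  nlinarith

end Pool.Agent.Helper42.KS
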